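import Pool.Agent.Y883.GJ.Stm2
import Pool.Agent.TH935.LP.L1
import Pool.Agent.Y806.SD.A

/-!
# Project GJ: the pointwise estimate on the major arcs, correlations
-/

set_option autoImplicit false

open Finset

namespace Pool.Agent.Y261.GJ

open Pool.Agent.Y883.GJ
open Pool.Agent.H807R2.Dav (ee)
open Pool.Agent.H373R2.T7 (lamz Vz pz)
open Pool.Agent.Y883.T3 (lsh)

theorem third (q : ℕ) [NeZero q] (a : ZMod q) (B1 B2 : Finset (DirichletCharacter ℂ q))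
    (c1 c2 : DirichletCharacter ℂ q → ℂ) (f : ℂ) (J M1 M2 : ℝ) (hM1 : 0 ≤ M1) (hM2 : 0 ≤ M2)
    (hJ : ∀ χ₁ ∈ B1, ∀ χ₂ ∈ B2, ‖∑ l : ZMod q, χ₁⁻¹ l * (starRingEnd ℂ) (χ₂⁻¹ (l - a))‖ ≤ J)
    (h1 : ∀ χ ∈ B1, ‖c1 χ‖ ≤ M1) (h2 : ∀ χ ∈ B2, ‖c2 χ‖ ≤ M2) :
    ‖∑ l : ZMod q, (f * ∑ χ ∈ B1, χ⁻¹ l * c1 χ) *
        (starRingEnd ℂ) (f * ∑ χ ∈ B2, χ⁻¹ (l - a) * c2 χ)‖
      ≤ ‖f‖ ^ 2 * (B1.card * (B2.card * (M1 * M2 * J))) := by
  have e : ∑ l : ZMod q, (f * ∑ χ ∈ B1, χ⁻¹ l * c1 χ) *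
      (starRingEnd ℂ) (f * ∑ χ ∈ B2, χ⁻¹ (l - a) * c2 χ) =
      f * (starRingEnd ℂ) f * ∑ χ₁ ∈ B1, ∑ χ₂ ∈ B2, c1 χ₁ * (starRingEnd ℂ) (c2 χ₂) *
        ∑ l : ZMod q, χ₁⁻¹ l * (starRingEnd ℂ) (χ₂⁻¹ (l - a)) := by
    have e1 : ∀ l : ZMod q, (f * ∑ χ ∈ B1, χ⁻¹ l * c1 χ) *
        (starRingEnd ℂ) (f * ∑ χ ∈ B2, χ⁻¹ (l - a) * c2 χ) =
        ∑ χ₁ ∈ B1, ∑ χ₂ ∈ B2, f * (starRingEnd ℂ) f * (c1 χ₁ * (starRingEnd ℂ) (c2 χ₂) *
          (χ₁⁻¹ l * (starRingEnd ℂ) (χ₂⁻¹ (l - a)))) := by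
      intro l
      rw [map_mul, map_sum, show (f * ∑ χ ∈ B1, χ⁻¹ l * c1 χ) * ((starRingEnd ℂ) f *
        ∑ χ ∈ B2, (starRingEnd ℂ) (χ⁻¹ (l - a) * c2 χ)) = (f * (starRingEnd ℂ) f) *
        ((∑ χ ∈ B1, χ⁻¹ l * c1 χ) * ∑ χ ∈ B2, (starRingEnd ℂ) (χ⁻¹ (l - a) * c2 χ)) by ring,
        Finset.sum_mul_sum, Finset.mul_sum]
      refine Finset.sum_congr rfl fun χ₁ _ => ?_
      rw [Finset.mul_sum]
      refine Finset.sum_congr rfl fun χ₂ _ => ?_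
      rw [map_mul]
      ring
    rw [Finset.sum_congr rfl fun l _ => e1 l, Finset.sum_comm, Finset.mul_sum]
    refine Finset.sum_congr rfl fun χ₁ _ => ?_
    rw [Finset.sum_comm, Finset.mul_sum]
    refine Finset.sum_congr rfl fun χ₂ _ => ?_
    rw [← Finset.mul_sum, ← Finset.mul_sum]
  rw [e, norm_mul]
  have hf : ‖f * (starRingEnd ℂ) f‖ = ‖f‖ ^ 2 := by
    rw [norm_mul, RCLike.norm_conj, sq]
  rw [hf]
  refine mul_le_mul_of_nonneg_left ?_ (sq_nonneg _)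
  refine (norm_sum_le _ _).trans ?_
  rw [← nsmul_eq_mul]
  refine Finset.sum_le_card_nsmul _ _ _ fun χ₁ hχ₁ => ?_
  refine (norm_sum_le _ _).trans ?_
  rw [← nsmul_eq_mul]
  refine Finset.sum_le_card_nsmul _ _ _ fun χ₂ hχ₂ => ?_
  rw [norm_mul, norm_mul, RCLike.norm_conj]
  refine mul_le_mul (mul_le_mul (h1 _ hχ₁) (h2 _ hχ₂) (norm_nonneg _) hM1) (hJ _ hχ₁ _ hχ₂)
    (norm_nonneg _) (mul_nonneg hM1 hM2)

theorem jac (h6 : JacStm) (q : ℕ) [NeZero q] (a : ZMod q) (χ₁ χ₂ : DirichletCharacter ℂ q) :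
    ‖∑ l : ZMod q, χ₁⁻¹ l * (starRingEnd ℂ) (χ₂⁻¹ (l - a))‖ ≤
      q * (1 + Real.log q) * Real.sqrt ((Nat.gcd a.val q : ℝ) / χ₂.conductor) := by
  have e : ∑ l : ZMod q, χ₁⁻¹ l * (starRingEnd ℂ) (χ₂⁻¹ (l - a)) =
      χ₂ (-1) * ∑ m : ZMod q, χ₂ m * χ₁⁻¹ (a - m) := by
    rw [← Equiv.sum_comp (Equiv.subLeft a) fun l => χ₁⁻¹ l * (starRingEnd ℂ) (χ₂⁻¹ (l - a)),
      Finset.mul_sum]
    refine Finset.sum_congr rfl fun m _ => ?_
    rw [Equiv.subLeft_apply]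
    have h1 : (starRingEnd ℂ) (χ₂⁻¹ (a - m - a)) = χ₂ (a - m - a) := by
      rw [starRingEnd_apply, MulChar.star_apply', inv_inv]
    have h2 : a - m - a = (-1) * m := by ring
    rw [h1, h2, map_mul]
    ring
  rw [e, norm_mul]
  have h3 : ‖χ₂ (-1)‖ ≤ 1 := DirichletCharacter.norm_le_one χ₂ _
  have h4 := h6 q χ₂ χ₁⁻¹ a
  calc ‖χ₂ (-1)‖ * ‖∑ m : ZMod q, χ₂ m * χ₁⁻¹ (a - m)‖ ≤
        1 * ‖∑ m : ZMod q, χ₂ m * χ₁⁻¹ (a - m)‖ :=
        mul_le_mul_of_nonneg_right h3 (norm_nonneg _)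
    _ ≤ _ := by rw [one_mul]; exact h4

theorem cs_ineq {q : ℕ} [NeZero q] (u v : ZMod q → ℂ) (a : ZMod q) :
    ‖∑ l : ZMod q, u l * (starRingEnd ℂ) (v (l - a))‖ ^ 2 ≤
      (∑ l, ‖u l‖ ^ 2) * ∑ l, ‖v l‖ ^ 2 := by
  have h1 : ‖∑ l : ZMod q, u l * (starRingEnd ℂ) (v (l - a))‖ ≤
      ∑ l : ZMod q, ‖u l‖ * ‖v (l - a)‖ := by
    refine (norm_sum_le _ _).trans (le_of_eq ?_)
    refine Finset.sum_congr rfl fun l _ => ?_
    rw [norm_mul, RCLike.norm_conj]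
  have h2 : (∑ l : ZMod q, ‖u l‖ * ‖v (l - a)‖) ^ 2 ≤
      (∑ l, ‖u l‖ ^ 2) * ∑ l : ZMod q, ‖v (l - a)‖ ^ 2 := Finset.sum_mul_sq_le_sq_mul_sq _ _ _
  have h3 : ∑ l : ZMod q, ‖v (l - a)‖ ^ 2 = ∑ l, ‖v l‖ ^ 2 :=
    Equiv.sum_comp (Equiv.subRight a) fun l => ‖v l‖ ^ 2
  rw [h3] at h2
  exact (pow_le_pow_left₀ (norm_nonneg _) h1 2).trans h2

theorem split3 {q : ℕ} [NeZero q] (u v ub vb : ZMod q → ℂ) (a : ZMod q) :
    ‖∑ l : ZMod q, u l * (starRingEnd ℂ) (v (l - a))‖ ^ 2 ≤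
      3 * ((∑ l, ‖u l - ub l‖ ^ 2) * ∑ l, ‖v l‖ ^ 2 + (∑ l, ‖ub l‖ ^ 2) * ∑ l, ‖v l - vb l‖ ^ 2 +
        ‖∑ l : ZMod q, ub l * (starRingEnd ℂ) (vb (l - a))‖ ^ 2) := by
  have e : ∑ l : ZMod q, u l * (starRingEnd ℂ) (v (l - a)) =
      ∑ l : ZMod q, (u l - ub l) * (starRingEnd ℂ) (v (l - a)) +
      ∑ l : ZMod q, ub l * (starRingEnd ℂ) (v (l - a) - vb (l - a)) +
      ∑ l : ZMod q, ub l * (starRingEnd ℂ) (vb (l - a)) := by
    rw [← Finset.sum_add_distrib, ← Finset.sum_add_distrib]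
    refine Finset.sum_congr rfl fun l _ => ?_
    rw [map_sub]; ring
  have h1 := cs_ineq (fun l => u l - ub l) v a
  have h2 := cs_ineq ub (fun l => v l - vb l) a
  rw [e]
  set x := ∑ l : ZMod q, (u l - ub l) * (starRingEnd ℂ) (v (l - a))
  set y := ∑ l : ZMod q, ub l * (starRingEnd ℂ) (v (l - a) - vb (l - a))
  set z := ∑ l : ZMod q, ub l * (starRingEnd ℂ) (vb (l - a))
  have h3 : ‖x + y + z‖ ≤ ‖x‖ + ‖y‖ + ‖z‖ := norm_add₃_le
  have h4 : ‖x + y + z‖ ^ 2 ≤ (‖x‖ + ‖y‖ + ‖z‖) ^ 2 := pow_le_pow_left₀ (norm_nonneg _) h3 2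
  have h5 : (‖x‖ + ‖y‖ + ‖z‖) ^ 2 ≤ 3 * (‖x‖ ^ 2 + ‖y‖ ^ 2 + ‖z‖ ^ 2) := by
    nlinarith [sq_nonneg (‖x‖ - ‖y‖), sq_nonneg (‖y‖ - ‖z‖), sq_nonneg (‖x‖ - ‖z‖)]
  have h1' : ‖x‖ ^ 2 ≤ (∑ l, ‖u l - ub l‖ ^ 2) * ∑ l, ‖v l‖ ^ 2 := h1
  have h2' : ‖y‖ ^ 2 ≤ (∑ l, ‖ub l‖ ^ 2) * ∑ l, ‖v l - vb l‖ ^ 2 := h2
  linarith

/-- bounds for Euler's function -/
theorem tot_bd (q N : ℕ) (hq : 1 ≤ q) (hqN : q ≤ N) (hL : 2 ≤ Real.log N) :
    (q : ℝ) ≤ q.totient * (3 * Real.log N) := by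
  have h1 := Pool.Agent.Y806.SD.le_totient q hq
  have h2 : (q : ℝ) ≤ q.totient * ((Nat.log 2 q : ℝ) + 1) := by exact_mod_cast h1
  have hq0 : (0 : ℝ) < q := by exact_mod_cast hq
  have h3 : (Nat.log 2 q : ℝ) * Real.log 2 ≤ Real.log q := by
    rw [← Real.log_pow]
    refine Real.log_le_log (by positivity) ?_
    exact_mod_cast Nat.pow_log_le_self 2 (by omega)
  have h4 : Real.log q ≤ Real.log N := Real.log_le_log hq0 (by exact_mod_cast hqN)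
  have h5 := Real.log_two_gt_d9
  have h6 : (Nat.log 2 q : ℝ) ≤ 2 * Real.log N := by
    have h7 : (0 : ℝ) ≤ (Nat.log 2 q : ℝ) := by positivity
    nlinarith
  refine h2.trans (mul_le_mul_of_nonneg_left ?_ (by positivity))
  linarith

/-- the nonunits -/
theorem nonu_bd (c U k : ℕ) (N q L : ℝ) (hL : 2 ≤ L) (hq : 0 < q) (hqN : q ≤ N)
    (hU : 2 * c + 2 * k ≤ U) :
    (N / q + 1) * Real.sqrt (N / L ^ U * (N * (2 * L) ^ c)) ≤ 2 * N ^ 2 / (q * L ^ k) := by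
  have hN : 0 < N := lt_of_lt_of_le hq hqN
  have hL0 : 0 < L := by linarith
  have h1 : N / q + 1 ≤ 2 * N / q := by
    have : 1 ≤ N / q := by rw [le_div_iff₀ hq]; linarith
    have e : 2 * N / q = N / q + N / q := by ring
    rw [e]; linarith
  have h2 : N / L ^ U * (N * (2 * L) ^ c) ≤ (N / L ^ k) ^ 2 := by
    have h3 : (2 * L) ^ c ≤ L ^ (2 * c) := by
      rw [pow_mul]
      exact pow_le_pow_left₀ (by positivity) (by nlinarith) c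
    have h4 : L ^ (2 * c) * L ^ (2 * k) ≤ L ^ U := by
      rw [← pow_add]
      exact pow_le_pow_right₀ (by linarith) hU
    have h5 : (N / L ^ k) ^ 2 = N ^ 2 / L ^ (2 * k) := by
      rw [div_pow, ← pow_mul, mul_comm k 2]
    have h6 : N / L ^ U * (N * (2 * L) ^ c) = N ^ 2 * (2 * L) ^ c / L ^ U := by ring
    rw [h5, h6, div_le_div_iff₀ (by positivity) (by positivity)]
    calc N ^ 2 * (2 * L) ^ c * L ^ (2 * k) ≤ N ^ 2 * L ^ (2 * c) * L ^ (2 * k) := by gcongr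
      _ = N ^ 2 * (L ^ (2 * c) * L ^ (2 * k)) := by ring
      _ ≤ N ^ 2 * L ^ U := by gcongr
  have h3 : Real.sqrt (N / L ^ U * (N * (2 * L) ^ c)) ≤ N / L ^ k :=
    (Real.sqrt_le_sqrt h2).trans (le_of_eq (Real.sqrt_sq (by positivity)))
  calc (N / q + 1) * Real.sqrt (N / L ^ U * (N * (2 * L) ^ c)) ≤ 2 * N / q * (N / L ^ k) :=
        mul_le_mul h1 h3 (Real.sqrt_nonneg _) (by positivity)
    _ = 2 * N ^ 2 / (q * L ^ k) := by field_simp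

/-- the square mean of a function bounded by the divisor function -/
theorem triv_bd (h4 : L2Stm) (q N : ℕ) [NeZero q] (hN : 1 ≤ N) (hqN : q ≤ N)
    (hL : 2 ≤ Real.log N) (F : ℕ → ℂ) (η : ℝ)
    (hF : ∀ n ∈ Icc 1 N, ‖F n‖ ≤ 2 * Real.log N * (n.divisors.card : ℝ)) :
    ∑ l : ZMod q, ‖cl q N F η l‖ ^ 2 ≤ 128 * Real.log N ^ 6 * ((N : ℝ) ^ 2 / q) := by
  set L := Real.log N with hLdef
  have hq0 : (0 : ℝ) < q := by exact_mod_cast Nat.pos_of_ne_zero (NeZero.ne q)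
  have hqN' : (q : ℝ) ≤ N := by exact_mod_cast hqN
  have hN0 : (0 : ℝ) < N := lt_of_lt_of_le hq0 hqN'
  have hL0 : 0 < L := by linarith
  have h1 := (h4 q N F).2 η
  have h2 : (N : ℝ) / q + 1 ≤ 2 * N / q := by
    have : 1 ≤ (N : ℝ) / q := by rw [le_div_iff₀ hq0]; linarith
    have e : 2 * (N : ℝ) / q = N / q + N / q := by ring
    rw [e]; linarith
  have h3 : ∑ n ∈ Icc 1 N, ‖F n‖ ^ 2 ≤ 4 * L ^ 2 * (N * (2 * L) ^ 4) := by
    calc ∑ n ∈ Icc 1 N, ‖F n‖ ^ 2 ≤ ∑ n ∈ Icc 1 N, 4 * L ^ 2 * (n.divisors.card : ℝ) ^ 2 := by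
          refine Finset.sum_le_sum fun n hn => ?_
          have h := pow_le_pow_left₀ (norm_nonneg _) (hF n hn) 2
          refine h.trans (le_of_eq ?_)
          ring
      _ = 4 * L ^ 2 * ∑ n ∈ Icc 1 N, (n.divisors.card : ℝ) ^ 2 := by rw [Finset.mul_sum]
      _ ≤ 4 * L ^ 2 * (N * (1 + L) ^ (2 ^ 2)) := by
          refine mul_le_mul_of_nonneg_left ?_ (by positivity)
          exact Pool.Agent.TH935.LD.tau_pow_sum 2 N
      _ ≤ 4 * L ^ 2 * (N * (2 * L) ^ 4) := by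
          refine mul_le_mul_of_nonneg_left ?_ (by positivity)
          refine mul_le_mul_of_nonneg_left ?_ hN0.le
          exact pow_le_pow_left₀ (by linarith) (by linarith) 4
  calc ∑ l : ZMod q, ‖cl q N F η l‖ ^ 2 ≤ ((N : ℝ) / q + 1) * ∑ n ∈ Icc 1 N, ‖F n‖ ^ 2 := h1
    _ ≤ 2 * N / q * (4 * L ^ 2 * (N * (2 * L) ^ 4)) :=
        mul_le_mul h2 h3 (Finset.sum_nonneg fun _ _ => sq_nonneg _) (by positivity)
    _ = 128 * L ^ 6 * ((N : ℝ) ^ 2 / q) := by ring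

theorem cs_sub (q N z r : ℕ) (η : ℝ) (χ : DirichletCharacter ℂ q) :
    cs q N (FF z r) η χ = cs q N LA η χ - cs q N (LS z r) η χ := by
  unfold cs
  rw [← Finset.sum_sub_distrib]
  refine Finset.sum_congr rfl fun n _ => ?_
  unfold FF LA LS
  push_cast
  ring

theorem norm_FF (z r n : ℕ) : ‖FF z r n‖ = |ArithmeticFunction.vonMangoldt n - lsh z r n| := by
  unfold FF
  rw [Complex.norm_real, Real.norm_eq_abs]

theorem norm_LA (n : ℕ) : ‖LA n‖ = ArithmeticFunction.vonMangoldt n := by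
  unfold LA
  rw [Complex.norm_real, Real.norm_eq_abs, abs_of_nonneg ArithmeticFunction.vonMangoldt_nonneg]

theorem LA_bd (N : ℕ) (hL : 2 ≤ Real.log N) : ∀ n ∈ Icc 1 N,
    ‖LA n‖ ≤ 2 * Real.log N * (n.divisors.card : ℝ) := by
  intro n hn
  rw [mem_Icc] at hn
  have h1 : ArithmeticFunction.vonMangoldt n ≤ Real.log n := ArithmeticFunction.vonMangoldt_le_log
  have h2 : Real.log n ≤ Real.log N :=
    Real.log_le_log (by exact_mod_cast hn.1) (by exact_mod_cast hn.2)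
  have h3 : (1 : ℝ) ≤ (n.divisors.card : ℝ) := by
    have : 0 < n.divisors.card := Finset.card_pos.2 ⟨1, Nat.one_mem_divisors.2 (by omega)⟩
    exact_mod_cast this
  rw [norm_LA]
  nlinarith

theorem num0 (L : ℝ) (hL : 100 ≤ L) : 10 * (15 * L + 2) ≤ L ^ 20 := by
  have hL1 : 1 ≤ L := by linarith
  have h20 : L ^ 20 = L ^ 2 * L ^ 18 := by ring
  have h182 : 100 ≤ L ^ 18 := by
    calc (100 : ℝ) ≤ L := hL
      _ = L ^ 1 := (pow_one _).symm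
      _ ≤ L ^ 18 := pow_le_pow_right₀ hL1 (by norm_num)
  have h2 : 10 * (15 * L + 2) ≤ L ^ 2 * 100 := by nlinarith
  rw [h20]
  exact h2.trans (mul_le_mul_of_nonneg_left h182 (sq_nonneg L))

theorem num1 (L Y : ℝ) (hL : 100 ≤ L) (hY : 0 ≤ Y) : 15 * L * Y + 2 * Y ≤ L ^ 20 * Y / 10 := by
  have h := mul_le_mul_of_nonneg_right (num0 L hL) hY
  linarith

theorem num3 (s P T : ℝ) (hs : s ≤ P) (h1 : 1 ≤ P) (hT : 0 ≤ T) : s * T + T ≤ 2 * P * T := by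
  nlinarith

theorem num4 (x a b : ℝ) (hx : 0 ≤ x) (h : x ≤ a + b) : x ^ 2 ≤ 2 * a ^ 2 + 2 * b ^ 2 := by
  have h' := pow_le_pow_left₀ hx h 2
  nlinarith [sq_nonneg (a - b)]

theorem num5 (C3 T A : ℕ) (L : ℝ) (hL : 0 < L) : L ^ T / L ^ (4 * C3 + T + A + 20) =
    (L ^ C3)⁻¹ ^ 4 * (L ^ A)⁻¹ * (L ^ 20)⁻¹ := by
  rw [pow_add, pow_add, pow_add, pow_mul']
  field_simp

theorem num6 (L : ℝ) (hL : 100 ≤ L) : 4608 * (L ^ 10 * (L ^ 20)⁻¹) ≤ 1 / 10 := by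
  have hL0 : 0 < L := by linarith
  have g1 : L ^ 10 * (L ^ 20)⁻¹ = 1 / L ^ 10 := by
    field_simp
  rw [g1]
  have g2 : (100 : ℝ) ^ 10 ≤ L ^ 10 := pow_le_pow_left₀ (by norm_num) hL 10
  rw [mul_one_div, div_le_div_iff₀ (by positivity) (by norm_num)]
  linarith

theorem num7 (q L P X Y N2 : ℝ) (hq : 0 < q) (hP : P ≠ 0) (hY : Y ≠ 0) (hL : L ≠ 0) :
    (3 * L) ^ 2 * P ^ 2 * P ^ 2 * (2 * L) ^ 2 * (P⁻¹ ^ 4 * Y⁻¹ * (L ^ 20)⁻¹) *
      (X * (128 * L ^ 6 * (N2 / q))) =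
    4608 * (L ^ 10 * (L ^ 20)⁻¹) * (N2 / q * Y⁻¹) * X := by
  have h1 : P ^ 2 * P ^ 2 * P⁻¹ ^ 4 = 1 := by
    field_simp
  calc (3 * L) ^ 2 * P ^ 2 * P ^ 2 * (2 * L) ^ 2 * (P⁻¹ ^ 4 * Y⁻¹ * (L ^ 20)⁻¹) *
      (X * (128 * L ^ 6 * (N2 / q))) =
      (P ^ 2 * P ^ 2 * P⁻¹ ^ 4) * (4608 * (L ^ 10 * (L ^ 20)⁻¹) * (N2 / q * Y⁻¹) * X) := by ring
    _ = _ := by rw [h1, one_mul]

theorem num8 (f q b b' s1 s2 s3 l Y SG SF : ℝ) (hf : f ≠ 0) (h1 : s1 ^ 2 = f * SG)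
    (h2 : s2 ^ 2 = f * SF) (h3 : s3 ^ 2 = Y) :
    (f⁻¹ ^ 2 * (b * (b' * (s1 * s2 * (q * l * s3))))) ^ 2 =
      (f⁻¹ * q) ^ 2 * b ^ 2 * b' ^ 2 * l ^ 2 * Y * (SG * SF) := by
  have h4 : f⁻¹ ^ 2 * (f * f) = 1 := by field_simp
  calc (f⁻¹ ^ 2 * (b * (b' * (s1 * s2 * (q * l * s3))))) ^ 2 =
      (f⁻¹ ^ 2) ^ 2 * b ^ 2 * b' ^ 2 * s1 ^ 2 * s2 ^ 2 * q ^ 2 * l ^ 2 * s3 ^ 2 := by ring
    _ = (f⁻¹ ^ 2) ^ 2 * b ^ 2 * b' ^ 2 * (f * SG) * (f * SF) * q ^ 2 * l ^ 2 * Y := by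
        rw [h1, h2, h3]
    _ = (f⁻¹ ^ 2 * (f * f)) * ((f⁻¹ * q) ^ 2 * b ^ 2 * b' ^ 2 * l ^ 2 * Y * (SG * SF)) := by ring
    _ = _ := by rw [h4, one_mul]

theorem pwC (h1 : MajLStm) (h2 : MajHStm) (h3 : OrthStm) (h4 : L2Stm) (h5 : SmallCStm)
    (h6 : JacStm) (h7 : NonUStm) : PWCStm := by
  intro A C T ρ hρ
  obtain ⟨C3, N1, m1⟩ := h1 (A + 20) C ρ hρ
  obtain ⟨N2, m2⟩ := h2 (A + 20) C ρ hρ
  obtain ⟨c, m7⟩ := h7
  set A2 : ℕ := 4 * C3 + T + A + 20 with hA2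
  set U : ℕ := 2 * c + 2 * (A + 20) + C3 + 2 * A2 + 1 with hU
  obtain ⟨N3, m3⟩ := Pool.Agent.TH935.LD.ev_L' 100
  refine ⟨U, max 1 (max N1 (max N2 N3)), ?_⟩
  intro N hN q _ hq z r hPar a ha η hη
  have hN1 : 1 ≤ N := (le_max_left _ _).trans hN
  have hN' : max N1 (max N2 N3) ≤ N := (le_max_right _ _).trans hN
  have n1 : N1 ≤ N := (le_max_left _ _).trans hN'
  have n2 : N2 ≤ N := ((le_max_left _ _).trans (le_max_right _ _)).trans hN'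
  have n3 : N3 ≤ N := ((le_max_right _ _).trans (le_max_right _ _)).trans hN'
  have hL : 100 ≤ Real.log N := m3 N n3
  obtain ⟨B, hB1, hBc, hBs⟩ := m1 N n1 q hq
  have mH := m2 N n2 q hq z r hPar.hD hPar.hV η hη
  have hN0 : (1 : ℝ) ≤ N := by exact_mod_cast hN1
  have hq1 : 1 ≤ q := Nat.pos_of_ne_zero (NeZero.ne q)
  have hqN' : (q : ℝ) ≤ N := by
    refine hq.trans ?_
    calc (N : ℝ) ^ (1 / 2 - ρ) ≤ (N : ℝ) ^ (1 : ℝ) :=
          Real.rpow_le_rpow_of_exponent_le hN0 (by linarith)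
      _ = N := Real.rpow_one _
  have hqN : q ≤ N := by exact_mod_cast hqN'
  have hq0 : (0 : ℝ) < q := by exact_mod_cast hq1
  have hφ := tot_bd q N hq1 hqN (by linarith)
  have hφ0 : (0 : ℝ) < q.totient := by exact_mod_cast Nat.totient_pos.2 hq1
  have hlogq : Real.log q ≤ Real.log N := Real.log_le_log hq0 hqN'
  have hlogq0 : 0 ≤ Real.log q := Real.log_nonneg (by exact_mod_cast hq1)
  set L := Real.log N with hLdef
  have hL0 : 0 < L := by linarith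
  have hL1 : 1 ≤ L := by linarith
  set BF : Finset (DirichletCharacter ℂ q) := B.filter fun χ => L ^ A2 < (χ.conductor : ℝ) with hBF
  set u := cl q N LA η with hu
  set v := cl q N (FF z r) η with hv
  set ub := clB q N LA η B with hub
  set vb := clB q N (FF z r) η BF with hvb
  obtain ⟨o1, o2, o3⟩ := h3 q N LA η B
  obtain ⟨p1, p2, p3⟩ := h3 q N (FF z r) η BF
  set X : ℝ := (N : ℝ) ^ 2 / (q * L ^ A) with hX
  have hX0 : 0 < X := by positivity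
  -- the mean square of `v`
  have hFb : ∀ n ∈ Icc 1 N, ‖FF z r n‖ ≤ 2 * L * (n.divisors.card : ℝ) := fun n hn => by
    rw [norm_FF]; exact hPar.hT n hn
  have hLAb := LA_bd N (by linarith)
  have vS := triv_bd h4 q N hN1 hqN (by linarith) (FF z r) η hFb
  -- nonunits
  have nuL := m7 q N LA (2 * L) (N / L ^ U) η hN1 (by linarith) hLAb (by
    refine le_trans (le_of_eq ?_) (hPar.hL q hq1 hqN)
    exact Finset.sum_congr rfl fun n _ => norm_LA n)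
  have nuF := m7 q N (FF z r) (2 * L) (N / L ^ U) η hN1 (by linarith) hFb (by
    refine le_trans (le_of_eq ?_) (hPar.hC q hq1 hqN)
    exact Finset.sum_congr rfl fun n _ => norm_FF z r n)
  have nub := nonu_bd c U (A + 20) N q L (by linarith) hq0 hqN' (by omega)
  have hφinv : (q.totient : ℝ)⁻¹ ≤ 3 * L / q := by
    rw [inv_eq_one_div, div_le_div_iff₀ hφ0 hq0]
    linarith
  set E : ℝ := (N : ℝ) ^ 2 / L ^ (A + 20) with hE
  have hE0 : 0 < E := by positivity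
  have hXE : X = L ^ 20 * (E / q) := by
    rw [hX, hE, pow_add]
    field_simp
  have hEq : 2 * (N : ℝ) ^ 2 / (q * L ^ (A + 20)) = 2 * (E / q) := by
    rw [hE]; field_simp
  rw [hEq] at nub
  have hEq0 : 0 < E / q := by positivity
  -- first part
  have ugS : ∑ l, ‖u l - ub l‖ ^ 2 ≤ X / 10 := by
    rw [o1]
    have e1 := hBs η hη (univ.filter fun χ => χ ∉ B) (by
      rw [Finset.disjoint_left]
      intro χ hχ
      exact (mem_filter.1 hχ).2)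
    have e2 : (q.totient : ℝ)⁻¹ * ∑ χ ∈ univ.filter (fun χ => χ ∉ B), ‖cs q N LA η χ‖ ^ 2 ≤
        3 * L / q * E :=
      mul_le_mul hφinv e1 (Finset.sum_nonneg fun _ _ => sq_nonneg _) (by positivity)
    have e3 : 3 * L / q * E = 3 * L * (E / q) := by ring
    have e4 := num1 L (E / q) hL hEq0.le
    have e5 : 0 ≤ L * (E / q) := by positivity
    rw [hXE]
    linarith
  -- second part
  have small : ∀ χ ∈ B, χ ∉ BF → ‖cs q N (FF z r) η χ‖ ^ 2 ≤ 4 * L ^ (2 * A2) * (N / L ^ U) ^ 2 := by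
    intro χ hχ hχ'
    have hc : (χ.conductor : ℝ) ≤ L ^ A2 := by
      by_contra hcon
      exact hχ' (mem_filter.2 ⟨hχ, not_le.1 hcon⟩)
    have e1 := h5 q N (FF z r) (N / L ^ U) (N / L ^ U) (by
      intro α
      exact hPar.hS α) (by
      refine le_trans (le_of_eq ?_) (hPar.hC q hq1 hqN)
      exact Finset.sum_congr rfl fun n _ => norm_FF z r n) χ η
    have e2 : Real.sqrt χ.conductor ≤ L ^ A2 := by
      have h1A : 1 ≤ L ^ A2 := one_le_pow₀ hL1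
      refine (Real.sqrt_le_sqrt hc).trans ?_
      rw [Real.sqrt_le_left (by positivity)]
      exact le_self_pow₀ h1A two_ne_zero
    have e3 : ‖cs q N (FF z r) η χ‖ ≤ 2 * L ^ A2 * (N / L ^ U) := by
      have h1A : 1 ≤ L ^ A2 := one_le_pow₀ hL1
      have hT0 : 0 ≤ (N : ℝ) / L ^ U := by positivity
      exact e1.trans (num3 _ _ _ e2 h1A hT0)
    calc ‖cs q N (FF z r) η χ‖ ^ 2 ≤ (2 * L ^ A2 * (N / L ^ U)) ^ 2 :=
          pow_le_pow_left₀ (norm_nonneg _) e3 2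
      _ = 4 * L ^ (2 * A2) * (N / L ^ U) ^ 2 := by ring
  have smallS : ∑ χ ∈ B.filter (fun χ => χ ∉ BF), ‖cs q N (FF z r) η χ‖ ^ 2 ≤ E := by
    have e1 : ∑ χ ∈ B.filter (fun χ => χ ∉ BF), ‖cs q N (FF z r) η χ‖ ^ 2 ≤
        (B.filter (fun χ => χ ∉ BF)).card • (4 * L ^ (2 * A2) * (N / L ^ U) ^ 2) :=
      Finset.sum_le_card_nsmul _ _ _ fun χ hχ => small χ (mem_filter.1 hχ).1 (mem_filter.1 hχ).2
    rw [nsmul_eq_mul] at e1
    have e2 : ((B.filter (fun χ => χ ∉ BF)).card : ℝ) ≤ L ^ C3 := by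
      refine le_trans ?_ hBc
      exact_mod_cast Finset.card_le_card (Finset.filter_subset _ _)
    refine e1.trans ?_
    calc ((B.filter (fun χ => χ ∉ BF)).card : ℝ) * (4 * L ^ (2 * A2) * (N / L ^ U) ^ 2) ≤
          L ^ C3 * (L * L ^ (2 * A2) * (N / L ^ U) ^ 2) := by
          refine mul_le_mul e2 ?_ (by positivity) (by positivity)
          refine mul_le_mul_of_nonneg_right ?_ (by positivity)
          refine mul_le_mul_of_nonneg_right ?_ (by positivity)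
          linarith
      _ = (N : ℝ) ^ 2 * L ^ (C3 + 1 + 2 * A2) / L ^ (2 * U) := by
          rw [div_pow, ← pow_mul, mul_comm U 2, pow_add, pow_add, pow_one]
          ring
      _ ≤ E := by
          rw [hE, div_le_div_iff₀ (by positivity) (by positivity), mul_assoc, ← pow_add]
          refine mul_le_mul_of_nonneg_left ?_ (by positivity)
          exact pow_le_pow_right₀ hL1 (by omega)
  have bigS : ∑ χ ∈ univ.filter (fun χ => χ ∉ B), ‖cs q N (FF z r) η χ‖ ^ 2 ≤ 4 * E := by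
    have e1 := hBs η hη (univ.filter fun χ => χ ∉ B) (by
      rw [Finset.disjoint_left]
      intro χ hχ
      exact (mem_filter.1 hχ).2)
    have e2 := mH (univ.filter fun χ => χ ∉ B) (by
      intro h
      exact (mem_filter.1 h).2 hB1)
    calc ∑ χ ∈ univ.filter (fun χ => χ ∉ B), ‖cs q N (FF z r) η χ‖ ^ 2 ≤
          ∑ χ ∈ univ.filter (fun χ => χ ∉ B),
            (2 * ‖cs q N LA η χ‖ ^ 2 + 2 * ‖cs q N (LS z r) η χ‖ ^ 2) := by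
          refine Finset.sum_le_sum fun χ _ => ?_
          rw [cs_sub]
          exact num4 _ _ _ (norm_nonneg _) (norm_sub_le (cs q N LA η χ) (cs q N (LS z r) η χ))
      _ = 2 * ∑ χ ∈ univ.filter (fun χ => χ ∉ B), ‖cs q N LA η χ‖ ^ 2 +
            2 * ∑ χ ∈ univ.filter (fun χ => χ ∉ B), ‖cs q N (LS z r) η χ‖ ^ 2 := by
          rw [Finset.sum_add_distrib, Finset.mul_sum, Finset.mul_sum]
      _ ≤ 4 * E := by linarith
  have vgS : ∑ l, ‖v l - vb l‖ ^ 2 ≤ X / 10 := by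
    rw [p1]
    have e0 : (univ.filter fun χ => χ ∉ BF) ⊆
        (univ.filter fun χ => χ ∉ B) ∪ B.filter (fun χ => χ ∉ BF) := by
      intro χ hχ
      have := (mem_filter.1 hχ).2
      by_cases h : χ ∈ B
      · exact mem_union_right _ (mem_filter.2 ⟨h, this⟩)
      · exact mem_union_left _ (mem_filter.2 ⟨mem_univ _, h⟩)
    have e1 : ∑ χ ∈ univ.filter (fun χ => χ ∉ BF), ‖cs q N (FF z r) η χ‖ ^ 2 ≤ 5 * E := by
      calc ∑ χ ∈ univ.filter (fun χ => χ ∉ BF), ‖cs q N (FF z r) η χ‖ ^ 2 ≤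
            ∑ χ ∈ (univ.filter fun χ => χ ∉ B) ∪ B.filter (fun χ => χ ∉ BF),
              ‖cs q N (FF z r) η χ‖ ^ 2 :=
            Finset.sum_le_sum_of_subset_of_nonneg e0 fun _ _ _ => sq_nonneg _
        _ = ∑ χ ∈ univ.filter (fun χ => χ ∉ B), ‖cs q N (FF z r) η χ‖ ^ 2 +
              ∑ χ ∈ B.filter (fun χ => χ ∉ BF), ‖cs q N (FF z r) η χ‖ ^ 2 := by
            rw [Finset.sum_union]
            rw [Finset.disjoint_left]
            intro χ hχ hχ'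
            exact (mem_filter.1 hχ).2 (mem_filter.1 hχ').1
        _ ≤ 5 * E := by linarith
    have e2 : (q.totient : ℝ)⁻¹ * ∑ χ ∈ univ.filter (fun χ => χ ∉ BF),
        ‖cs q N (FF z r) η χ‖ ^ 2 ≤ 3 * L / q * (5 * E) :=
      mul_le_mul hφinv e1 (Finset.sum_nonneg fun _ _ => sq_nonneg _) (by positivity)
    have e3 : 3 * L / q * (5 * E) = 15 * L * (E / q) := by ring
    have e4 := num1 L (E / q) hL hEq0.le
    rw [hXE]
    linarith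
  -- third part
  set SG := ∑ l, ‖u l‖ ^ 2 with hSG
  set SF := ∑ l, ‖v l‖ ^ 2 with hSF
  have hSG0 : 0 ≤ SG := Finset.sum_nonneg fun _ _ => sq_nonneg _
  have hSF0 : 0 ≤ SF := Finset.sum_nonneg fun _ _ => sq_nonneg _
  have csb : ∀ (F : ℕ → ℂ), (∑ χ : DirichletCharacter ℂ q, ‖cs q N F η χ‖ ^ 2 =
      q.totient * ∑ l ∈ univ.filter (fun l : ZMod q => IsUnit l), ‖cl q N F η l‖ ^ 2) →
      ∀ χ : DirichletCharacter ℂ q, ‖cs q N F η χ‖ ≤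
        Real.sqrt (q.totient * ∑ l, ‖cl q N F η l‖ ^ 2) := by
    intro F hF χ
    refine Real.le_sqrt_of_sq_le ?_
    calc ‖cs q N F η χ‖ ^ 2 ≤ ∑ χ : DirichletCharacter ℂ q, ‖cs q N F η χ‖ ^ 2 :=
          Finset.single_le_sum (f := fun χ : DirichletCharacter ℂ q => ‖cs q N F η χ‖ ^ 2)
            (fun _ _ => sq_nonneg _) (mem_univ χ)
      _ = q.totient * ∑ l ∈ univ.filter (fun l : ZMod q => IsUnit l), ‖cl q N F η l‖ ^ 2 := hF
      _ ≤ q.totient * ∑ l, ‖cl q N F η l‖ ^ 2 := by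
          refine mul_le_mul_of_nonneg_left ?_ hφ0.le
          exact Finset.sum_le_sum_of_subset_of_nonneg (Finset.subset_univ _)
            fun _ _ _ => sq_nonneg _
  have th : ‖∑ l : ZMod q, ub l * (starRingEnd ℂ) (vb (l - a))‖ ≤
      ‖(q.totient : ℂ)⁻¹‖ ^ 2 * (B.card * (BF.card * (Real.sqrt (q.totient * SG) *
        Real.sqrt (q.totient * SF) * (q * (1 + L) * Real.sqrt (L ^ T / L ^ A2))))) := by
    refine third q a B BF (cs q N LA η) (cs q N (FF z r) η) _ _ _ _ (Real.sqrt_nonneg _)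
      (Real.sqrt_nonneg _) ?_ (fun χ _ => csb LA o3 χ) (fun χ _ => csb (FF z r) p3 χ)
    intro χ₁ _ χ₂ hχ₂
    refine (jac h6 q a χ₁ χ₂).trans ?_
    have hcond : L ^ A2 < (χ₂.conductor : ℝ) := (mem_filter.1 hχ₂).2
    refine mul_le_mul ?_ ?_ (Real.sqrt_nonneg _) (by positivity)
    · exact mul_le_mul_of_nonneg_left (by linarith) hq0.le
    · refine Real.sqrt_le_sqrt ?_
      exact div_le_div₀ (by positivity) ha (by positivity) hcond.le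
  have th2 : ‖∑ l : ZMod q, ub l * (starRingEnd ℂ) (vb (l - a))‖ ^ 2 ≤ X / 10 * SG := by
    have e1 := pow_le_pow_left₀ (norm_nonneg _) th 2
    refine e1.trans ?_
    have hnφ : ‖(q.totient : ℂ)⁻¹‖ = (q.totient : ℝ)⁻¹ := by
      rw [norm_inv, Complex.norm_natCast]
    rw [hnφ]
    set φ : ℝ := (q.totient : ℝ) with hφdef
    have s1 : Real.sqrt (φ * SG) ^ 2 = φ * SG := Real.sq_sqrt (by positivity)
    have s2 : Real.sqrt (φ * SF) ^ 2 = φ * SF := Real.sq_sqrt (by positivity)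
    have s3 : Real.sqrt (L ^ T / L ^ A2) ^ 2 = L ^ T / L ^ A2 := Real.sq_sqrt (by positivity)
    have e2 := num8 φ q B.card BF.card (Real.sqrt (φ * SG)) (Real.sqrt (φ * SF))
      (Real.sqrt (L ^ T / L ^ A2)) (1 + L) (L ^ T / L ^ A2) SG SF hφ0.ne' s1 s2 s3
    rw [e2]
    have f1 : φ⁻¹ * q ≤ 3 * L := by
      rw [inv_mul_le_iff₀ hφ0]
      linarith
    have f1' : 0 ≤ φ⁻¹ * q := by positivity
    have f2 : (BF.card : ℝ) ≤ L ^ C3 := by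
      refine le_trans ?_ hBc
      exact_mod_cast Finset.card_le_card (Finset.filter_subset _ _)
    have f3 : (L ^ T / L ^ A2) = (L ^ C3)⁻¹ ^ 4 * (L ^ A)⁻¹ * (L ^ 20)⁻¹ := by
      rw [hA2]
      exact num5 C3 T A L hL0
    have f4 : (1 + L) ^ 2 ≤ (2 * L) ^ 2 := pow_le_pow_left₀ (by linarith) (by linarith) 2
    calc (φ⁻¹ * q) ^ 2 * (B.card : ℝ) ^ 2 * (BF.card : ℝ) ^ 2 * (1 + L) ^ 2 *
          (L ^ T / L ^ A2) * (SG * SF) ≤
          (3 * L) ^ 2 * (L ^ C3) ^ 2 * (L ^ C3) ^ 2 * (2 * L) ^ 2 * (L ^ T / L ^ A2) *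
            (SG * (128 * L ^ 6 * ((N : ℝ) ^ 2 / q))) := by
          gcongr
      _ = 4608 * (L ^ 10 * (L ^ 20)⁻¹) * ((N : ℝ) ^ 2 / q * (L ^ A)⁻¹) * SG := by
          rw [f3]
          exact num7 q L (L ^ C3) SG (L ^ A) ((N : ℝ) ^ 2) hq0 (pow_ne_zero _ hL0.ne')
            (pow_ne_zero _ hL0.ne') hL0.ne'
      _ ≤ 1 / 10 * ((N : ℝ) ^ 2 / q * (L ^ A)⁻¹) * SG := by
          refine mul_le_mul_of_nonneg_right ?_ hSG0
          exact mul_le_mul_of_nonneg_right (num6 L hL) (by positivity)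
      _ = X / 10 * SG := by
          rw [hX]
          field_simp
  have fin := split3 u v ub vb a
  have g1 : (∑ l, ‖u l - ub l‖ ^ 2) * SF ≤ X / 10 * SF := mul_le_mul_of_nonneg_right ugS hSF0
  have g2 : (∑ l, ‖ub l‖ ^ 2) * ∑ l, ‖v l - vb l‖ ^ 2 ≤ SG * (X / 10) :=
    mul_le_mul o2 vgS (Finset.sum_nonneg fun _ _ => sq_nonneg _) hSG0
  have g3 : 0 ≤ X * SF := by positivity
  have g4 : 0 ≤ X * SG := by positivity
  show ‖∑ l : ZMod q, u l * (starRingEnd ℂ) (v (l - a))‖ ^ 2 ≤ X * (SG + SF)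
  linarith

end Pool.Agent.Y261.GJ
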